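import Pool.Agent.TH603.Cut.Main
import Pool.Agent.TH603.Sur.Uni

/-! Lower bounds for the degrees of curves through very general points with given multiplicities. -/

namespace Pool.Agent.TH603.Cut

open Finset Pool.Agent.TH603.Sur Pool.Agent.H932R3

/-- the number of conditions is at least the number of forms -/
theorem cond_large {n : ℕ} {w : Fin n → ℕ} {d : ℕ} {ε : ℝ} (hε : 0 < ε)
    (hn : 1 + ε ^ 2 ≤ ε * √(n : ℝ)) (hw : (n : ℝ) * ((n : ℝ) / 2 + 2) ≤ ∑ i, (w i : ℝ))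
    (hd : (d : ℝ) + 3 / 2 + ε ≤ ((∑ i, (w i : ℝ)) + (n : ℝ) / 2) / √(n : ℝ)) :
    (d + 2).choose 2 ≤ ∑ i, (w i + 1).choose 2 := by
  obtain ⟨r, hr⟩ : ∃ r, r = √(n : ℝ) := ⟨_, rfl⟩
  obtain ⟨S, hS⟩ : ∃ S, S = ∑ i, (w i : ℝ) := ⟨_, rfl⟩
  rw [← hr] at hn hd
  rw [← hS] at hw hd
  have hrr : r * r = n := by rw [hr]; exact Real.mul_self_sqrt (Nat.cast_nonneg n)
  have hr0 : 0 < r := by
    have h0 : 0 ≤ r := by rw [hr]; exact Real.sqrt_nonneg _
    rcases h0.eq_or_lt with h | h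
    · rw [← h, mul_zero] at hn; nlinarith
    · exact h
  have hn0 : (0 : ℝ) < n := by rw [← hrr]; positivity
  -- Cauchy-Schwarz
  have hcs : S ^ 2 ≤ n * ∑ i, (w i : ℝ) ^ 2 := by
    have := sq_sum_le_card_mul_sum_sq (s := (univ : Finset (Fin n))) (f := fun i => (w i : ℝ))
    rw [card_univ, Fintype.card_fin] at this
    rw [hS]; exact this
  -- the degree
  obtain ⟨u, hu⟩ : ∃ u, u = (S + (n : ℝ) / 2) / r := ⟨_, rfl⟩
  rw [← hu] at hd
  have hur : u * r = S + n / 2 := by rw [hu, div_mul_cancel₀ _ hr0.ne']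
  have hd0 : (0 : ℝ) ≤ d := Nat.cast_nonneg _
  have hul : r * (n / 2) ≤ u := by
    have h1 : (r * (n / 2)) * r ≤ u * r := by
      rw [hur]
      have : (r * (n / 2)) * r = n * (n / 2) := by rw [mul_right_comm, hrr]
      rw [this]
      nlinarith
    exact le_of_mul_le_mul_right h1 hr0
  have h2 : ((d : ℝ) + 3 / 2) ^ 2 ≤ (u - ε) ^ 2 := pow_le_pow_left₀ (by positivity) (by linarith) 2
  have h3 : 2 * ε * (r * (n / 2)) ≤ 2 * ε * u := mul_le_mul_of_nonneg_left hul (by positivity)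
  have h4 : (1 + ε ^ 2) * n ≤ ε * r * n := mul_le_mul_of_nonneg_right hn hn0.le
  have hn1 : (1 : ℝ) ≤ n := by
    have : 0 < n := by exact_mod_cast hn0
    exact_mod_cast this
  have h5 : ε ^ 2 * 1 ≤ ε ^ 2 * n := mul_le_mul_of_nonneg_left hn1 (by positivity)
  have h6 : n * u ^ 2 = (S + n / 2) ^ 2 := by
    rw [← hur, mul_pow, ← hrr]; ring
  have h7 : n * (((d : ℝ) + 2) * (d + 1)) ≤ n * (∑ i, (w i : ℝ) ^ 2 + S) := by
    have e1 : ((d : ℝ) + 2) * (d + 1) = ((d : ℝ) + 3 / 2) ^ 2 - 1 / 4 := by ring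
    rw [e1]
    have e2 : (u - ε) ^ 2 = u ^ 2 - 2 * ε * u + ε ^ 2 := by ring
    rw [e2] at h2
    have h8 : ((d : ℝ) + 3 / 2) ^ 2 - 1 / 4 ≤ u ^ 2 - n / 4 := by
      have : 2 * ε * (r * (n / 2)) = ε * r * n := by ring
      rw [this] at h3
      linarith
    have h9 : n * (((d : ℝ) + 3 / 2) ^ 2 - 1 / 4) ≤ n * (u ^ 2 - n / 4) :=
      mul_le_mul_of_nonneg_left h8 hn0.le
    have h10 : n * (u ^ 2 - n / 4) = (S + n / 2) ^ 2 - n ^ 2 / 4 := by rw [mul_sub, h6]; ring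
    rw [h10] at h9
    nlinarith
  have h8 := le_of_mul_le_mul_left h7 hn0
  have h9 : 2 * ((d + 2).choose 2 : ℝ) = ((d : ℝ) + 2) * (d + 1) := by
    rw [Nat.cast_choose_two]; push_cast; ring
  have h10 : 2 * ((∑ i, (w i + 1).choose 2 : ℕ) : ℝ) = ∑ i, (w i : ℝ) ^ 2 + S := by
    push_cast
    rw [hS, ← sum_add_distrib, mul_sum]
    refine sum_congr rfl fun i _ => ?_
    rw [Nat.cast_choose_two]; push_cast; ring
  have h11 : (((d + 2).choose 2 : ℕ) : ℝ) ≤ ((∑ i, (w i + 1).choose 2 : ℕ) : ℝ) := by linarith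
  exact_mod_cast h11

/-- **Curves through `D t ^ 2` very general points with large multiplicities have large degree.** -/
theorem degree_bound {D : ℕ} (hD : 1 ≤ D) {ε : ℝ} (hε : 0 < ε) : ∃ t0 : ℕ, ∀ t : ℕ, t0 ≤ t →
    ∀ n : ℕ, n = D * t ^ 2 → ∀ w : Fin n → ℕ,
      (n : ℝ) * ((n : ℝ) / 2 + 2) ≤ ∑ i, (w i : ℝ) →
      ∀ {L : Type} [Field L] [CharZero L] (P : Fin n → Fin 2 → L),
      AlgebraicIndependent ℚ (fun ij : Fin n × Fin 2 => P ij.1 ij.2) →
      ∀ (d : ℕ) (G : MvPolynomial (Fin 3) L), G ≠ 0 → G.IsHomogeneous d →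
        (∀ i, G ∈ (Ideal.span ({MvPolynomial.X 0 - MvPolynomial.C (P i 0) * MvPolynomial.X 2,
          MvPolynomial.X 1 - MvPolynomial.C (P i 1) * MvPolynomial.X 2} :
            Set (MvPolynomial (Fin 3) L))) ^ (w i)) →
        ((∑ i, (w i : ℝ)) + (n : ℝ) / 2) / √(n : ℝ) < (d : ℝ) + 3 / 2 + ε := by
  obtain ⟨t0, -, h⟩ := expDim_cut hD hε
  refine ⟨max t0 (⌈1 / ε + ε⌉₊ + 1), fun t ht n hn w hw L _ _ P hP d G hG hGd hGm => ?_⟩
  have ht0 : t0 ≤ t := (le_max_left _ _).trans ht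
  have ht2 : ⌈1 / ε + ε⌉₊ + 1 ≤ t := (le_max_right _ _).trans ht
  have htn : t ^ 2 ≤ n := by
    rw [hn]
    calc t ^ 2 = 1 * t ^ 2 := (one_mul _).symm
      _ ≤ D * t ^ 2 := Nat.mul_le_mul_right _ hD
  have hsq : 1 / ε + ε ≤ √(n : ℝ) := by
    refine (Nat.le_ceil _).trans ?_
    apply Real.le_sqrt_of_sq_le
    have h1 : ⌈1 / ε + ε⌉₊ ^ 2 ≤ n := (Nat.pow_le_pow_left (by omega) 2).trans htn
    exact_mod_cast h1
  have hn1 : 1 + ε ^ 2 ≤ ε * √(n : ℝ) := by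
    have h1 := mul_le_mul_of_nonneg_left hsq hε.le
    have e : ε * (1 / ε + ε) = 1 + ε ^ 2 := by field_simp
    linarith
  by_contra hcon
  push Not at hcon
  have h' := h t ht0
  rw [← hn] at h'
  obtain ⟨F, hF, hF'⟩ := h' w
  have h1 := hF' P (fun h0 => hF (hP.eq_zero_of_aeval_eq_zero F h0)) d (Or.inr (Or.inl ⟨hw, hcon⟩))
  have h3 := cond_large hε hn1 hw hcon
  unfold ExpDim at h1
  have h4 : (d + 2).choose 2 - ∑ i, (w i + 1).choose 2 = 0 := Nat.sub_eq_zero_of_le h3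
  rw [h4] at h1
  have : Module.Finite L ↥(MvPolynomial.homogeneousSubmodule (Fin 3) L d ⊓
      Submodule.restrictScalars L
        (⨅ i : Fin n, (Ideal.span ({MvPolynomial.X 0 - MvPolynomial.C (P i 0) * MvPolynomial.X 2,
          MvPolynomial.X 1 - MvPolynomial.C (P i 1) * MvPolynomial.X 2} :
            Set (MvPolynomial (Fin 3) L))) ^ (w i))) := by
    have : Module.Finite L ↥(MvPolynomial.homogeneousSubmodule (Fin 3) L d) :=
      Module.finite_of_finrank_pos (by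
        rw [TH603.Sur.finrank_forms]
        exact Nat.choose_pos (by omega))
    exact Submodule.finiteDimensional_inf_left _ _
  have h5 := Submodule.finrank_eq_zero.1 h1
  apply hG
  have h6 : G ∈ (MvPolynomial.homogeneousSubmodule (Fin 3) L d ⊓
      Submodule.restrictScalars L
        (⨅ i : Fin n, (Ideal.span ({MvPolynomial.X 0 - MvPolynomial.C (P i 0) * MvPolynomial.X 2,
          MvPolynomial.X 1 - MvPolynomial.C (P i 1) * MvPolynomial.X 2} :
            Set (MvPolynomial (Fin 3) L))) ^ (w i))) := by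
    refine ⟨hGd, ?_⟩
    show G ∈ (⨅ i : Fin n, _ : Ideal _)
    rw [Ideal.mem_iInf]
    exact hGm
  rw [h5] at h6
  exact (Submodule.mem_bot L).1 h6

/-- outside countably many hypersurfaces all coordinates are algebraically independent over `ℚ` -/
theorem exists_family (σ : Type) [Finite σ] : ∃ F : ℕ → MvPolynomial σ ℂ, (∀ j, F j ≠ 0) ∧
    ∀ x : σ → ℂ, (∀ j, MvPolynomial.eval x (F j) ≠ 0) → AlgebraicIndependent ℚ x := by
  classical
  have hc : Countable (MvPolynomial σ ℚ) := by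
    rw [← Cardinal.mk_le_aleph0_iff]
    refine MvPolynomial.cardinalMk_le_max.trans ?_
    simp only [max_le_iff]
    exact ⟨⟨Cardinal.mk_le_aleph0, Cardinal.mk_le_aleph0⟩, le_rfl⟩
  have hne : Nonempty {f : MvPolynomial σ ℚ // f ≠ 0} := ⟨⟨1, one_ne_zero⟩⟩
  obtain ⟨g, hg⟩ := exists_surjective_nat {f : MvPolynomial σ ℚ // f ≠ 0}
  refine ⟨fun j => (g j).1.map (algebraMap ℚ ℂ), fun j h0 => (g j).2
    (MvPolynomial.map_injective (algebraMap ℚ ℂ) (algebraMap ℚ ℂ).injective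
      (h0.trans (map_zero _).symm)), fun x hx => ?_⟩
  rw [algebraicIndependent_iff]
  intro p hp
  by_contra hne0
  obtain ⟨j, hj⟩ := hg ⟨p, hne0⟩
  refine hx j ?_
  show MvPolynomial.eval x ((g j).1.map (algebraMap ℚ ℂ)) = 0
  rw [hj, MvPolynomial.eval_map]
  exact hp

end Pool.Agent.TH603.Cut
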