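import Pool.Agent.TH603.Sur.Flat
import Pool.Agent.TH603.Cut.Gsum

/-! Exact flattenings of right triangles of real slope: independence. -/

namespace Pool.Agent.TH603.Cut

open Finset Pool.Agent.TH176.Nag Pool.Agent.TH603.Sur

variable {ι : Type} [Fintype ι] {w : ι → ℕ}

/-- the lattice points of the right triangle `x + ν y < Z` -/
def Op (Z ν : ℝ) : Set (ℤ × ℤ) := {p | 0 ≤ p.1 ∧ 0 ≤ p.2 ∧ (p.1 : ℝ) + ν * p.2 < Z}

/-- sorting rows -/
theorem Sur_sort {S S' : Set (ℤ × ℤ)}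
    (hS : ∀ p ∈ S', 0 ≤ p.1 ∧ ∃ B : Finset ℤ, p.1 < B.card ∧ ∀ b ∈ B, ((b, p.2) : ℤ × ℤ) ∈ S)
    (h : Sur w S') : Sur w S := by
  have h1 : Sur w {m : ℤ × ℤ | (m.2, m.1) ∈ S'} := by
    refine h.comap 0 1 1 0 0 0 (by norm_num) ?_
    rintro ⟨a, b⟩ hab
    exact ⟨(b, a), hab, by simp⟩
  have h2 : Sur w {m : ℤ × ℤ | (m.2, m.1) ∈ S} := by
    refine Sur_flat0 ?_ h1
    rintro ⟨a, b⟩ hab
    obtain ⟨h3, B, h4, h5⟩ := hS (b, a) hab
    exact ⟨h3, B, h4, h5⟩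
  refine h2.comap 0 1 1 0 0 0 (by norm_num) ?_
  rintro ⟨a, b⟩ hab
  exact ⟨(b, a), hab, by simp⟩

/-- flattening and sorting -/
theorem Sur_slabs {S S' : Set (ℤ × ℤ)} (x y u v : ℤ) (hdet : x * u + y * v = 1)
    (hS : ∀ p ∈ S', 0 ≤ p.1 ∧ 0 ≤ p.2 ∧ ∃ B : Finset ℤ, p.1 < B.card ∧ ∀ c ∈ B,
      ∃ s0 : ℤ, ∀ s : ℤ, s0 ≤ s → s ≤ s0 + p.2 → ((u * c - y * s, v * c + x * s) : ℤ × ℤ) ∈ S)
    (h : Sur w S') : Sur w S := by
  refine Sur_flat (S' := {q : ℤ × ℤ | 0 ≤ q.2 ∧ ∃ s0 : ℤ, ∀ s : ℤ, s0 ≤ s → s ≤ s0 + q.2 →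
    ((u * q.1 - y * s, v * q.1 + x * s) : ℤ × ℤ) ∈ S}) x y u v hdet (fun p hp => hp) ?_
  refine Sur_sort (fun p hp => ?_) h
  obtain ⟨h1, h2, B, h3, h4⟩ := hS p hp
  exact ⟨h1, B, h3, fun b hb => ⟨h2, h4 b hb⟩⟩

/-- the points of a slab -/
def slabF (k y H : ℕ) (f : ℕ → ℕ) : Finset (Σ _ : ℕ, ℕ) :=
  (range H).sigma fun I => range (if I < k then f I else min y (f I))

theorem mem_slabF {k y H : ℕ} {f : ℕ → ℕ} {I X : ℕ} :
    (⟨I, X⟩ : Σ _ : ℕ, ℕ) ∈ slabF k y H f ↔ I < H ∧ X < f I ∧ (I < k ∨ X < y) := by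
  unfold slabF
  rw [mem_sigma, mem_range, mem_range]
  simp only
  constructor
  · rintro ⟨h1, h2⟩
    split_ifs at h2 with h3
    · exact ⟨h1, h2, Or.inl h3⟩
    · exact ⟨h1, by omega, Or.inr (by omega)⟩
  · rintro ⟨h1, h2, h3⟩
    refine ⟨h1, ?_⟩
    split_ifs with h4
    · exact h2
    · have : X < y := by
        rcases h3 with h3 | h3
        · exact absurd h3 h4
        · exact h3
      omega

theorem card_slabF {k y H : ℕ} {f : ℕ → ℕ} :
    ((slabF k y H f).card : ℝ) = ∑ i ∈ range H, if i < k then (f i : ℝ) else min (y : ℝ) (f i) := by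
  unfold slabF
  rw [card_sigma]
  push_cast
  refine sum_congr rfl fun i _ => ?_
  rw [card_range]
  split_ifs
  · rfl
  · push_cast; rfl

theorem slab_inj {k y : ℕ} (hc : IsCoprime (k : ℤ) (y : ℤ)) (hk : 0 < k) {I X I' X' : ℕ}
    (h1 : I < k ∨ X < y) (h2 : I' < k ∨ X' < y)
    (h : (k : ℤ) * X - y * I = k * X' - y * I') : I = I' ∧ X = X' := by
  have e : (k : ℤ) * ((X : ℤ) - X') = y * ((I : ℤ) - I') := by linear_combination h
  have hd : (k : ℤ) ∣ ((I : ℤ) - I') := by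
    apply hc.dvd_of_dvd_mul_left
    exact Dvd.intro _ e
  obtain ⟨t, ht⟩ := hd
  have hX : (X : ℤ) - X' = y * t := by
    have hk0 : (k : ℤ) ≠ 0 := by exact_mod_cast hk.ne'
    apply mul_left_cancel₀ hk0
    rw [e, ht]; ring
  rcases lt_trichotomy t 0 with h0 | h0 | h0
  · exfalso
    have a1 : (k : ℤ) * t ≤ k * (-1) := mul_le_mul_of_nonneg_left (by omega) (by positivity)
    have a2 : (y : ℤ) * t ≤ y * (-1) := mul_le_mul_of_nonneg_left (by omega) (by positivity)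
    omega
  · subst h0
    rw [mul_zero] at ht hX
    omega
  · exfalso
    have a1 : (k : ℤ) * 1 ≤ k * t := mul_le_mul_of_nonneg_left (by omega) (by positivity)
    have a2 : (y : ℤ) * 1 ≤ y * t := mul_le_mul_of_nonneg_left (by omega) (by positivity)
    omega

/-- **the exact move**, independence -/
theorem move_S {ν n' Z Z' : ℝ} (hν : 0 < ν) {k y : ℕ} (hc : IsCoprime (k : ℤ) (y : ℤ)) (hk : 0 < k)
    (hn' : n' * ν = (ν * k + y) ^ 2)
    (hZ : (Z' + n' / 2) * ν + ν ^ 2 / 8 ≤ (ν * k + y) * (Z + ν / 2))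
    (h : Sur w (Op Z' n')) : Sur w (Op Z ν) := by
  classical
  obtain ⟨Δ, hΔ⟩ : ∃ Δ : ℝ, Δ = ν * k + y := ⟨_, rfl⟩
  have hkR : (0 : ℝ) < k := by exact_mod_cast hk
  have hΔ0 : 0 < Δ := by rw [hΔ]; positivity
  rw [← hΔ] at hn' hZ
  have hn0 : 0 ≤ n' := by
    by_contra hcon
    have : n' * ν < 0 := mul_neg_of_neg_of_pos (not_le.1 hcon) hν
    have := sq_nonneg Δ
    linarith
  obtain ⟨a, b, hab⟩ := hc
  refine Sur_slabs (k : ℤ) (-(y : ℤ)) a (-b) (by linear_combination hab) ?_ h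
  rintro ⟨p, j⟩ ⟨hp, hj, hpj⟩
  simp only at hp hj hpj
  refine ⟨hp, hj, ?_⟩
  obtain ⟨J, rfl⟩ := Int.eq_ofNat_of_zero_le hj
  simp only [Int.cast_natCast] at hpj
  obtain ⟨ZJ, hZJ⟩ : ∃ ZJ : ℝ, ZJ = Z - Δ * J := ⟨_, rfl⟩
  have hpR : (0 : ℝ) ≤ p := by exact_mod_cast hp
  -- `lin` at `ZJ`
  have hlin : (Z' - n' * J) * ν ≤ Δ * (ZJ + ν / 2) - Δ ^ 2 / 2 - ν ^ 2 / 8 := by
    have e : Δ * (ZJ + ν / 2) = Δ * (Z + ν / 2) - Δ ^ 2 * J := by rw [hZJ]; ring
    rw [e, ← hn']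
    linarith
  have hpos : 0 < (Z' - n' * J) * ν := mul_pos (by linarith) hν
  have hZJ0 : 0 ≤ ZJ := by
    by_contra hcon
    have h1 : Δ * ZJ < 0 := mul_neg_of_pos_of_neg hΔ0 (not_le.1 hcon)
    have h2 := sq_nonneg (Δ - ν / 2)
    nlinarith
  obtain ⟨H0, hH0⟩ := exists_nat_ge (ZJ / ν)
  obtain ⟨H, hH⟩ : ∃ H : ℕ, H = H0 + k := ⟨_, rfl⟩
  have hH1 : ZJ ≤ ν * H := by
    rw [div_le_iff₀ hν] at hH0
    have : (H : ℝ) = H0 + k := by rw [hH]; push_cast; ring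
    rw [this]
    have : 0 ≤ ν * k := by positivity
    linarith
  have hlow := slab_low hν (k := k) (y := y) (H := H) (by omega) hZJ0 hH1
  rw [← hΔ] at hlow
  let f : ℕ → ℕ := fun I => ⌈ZJ - ν * I⌉₊
  have hcard : slab ν k y H ZJ ≤ ((slabF k y H f).card : ℝ) := by
    rw [card_slabF]
    refine sum_le_sum fun i _ => ?_
    have h1 : max (ZJ - ν * i) 0 ≤ (f i : ℝ) := max_le (Nat.le_ceil _) (Nat.cast_nonneg _)
    split_ifs
    · exact h1
    · exact min_le_min le_rfl h1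
  refine ⟨(slabF k y H f).image fun q => (k : ℤ) * q.2 - y * q.1, ?_, ?_⟩
  · rw [card_image_of_injOn]
    · have h1 : (p : ℝ) < (slabF k y H f).card := by
        refine lt_of_lt_of_le ?_ hcard
        have h2 : (p : ℝ) < Z' - n' * J := by linarith
        have h3 : (p : ℝ) * ν < (Z' - n' * J) * ν := mul_lt_mul_of_pos_right h2 hν
        have h4 : (p : ℝ) * ν < slab ν k y H ZJ * ν := by linarith
        exact lt_of_mul_lt_mul_right h4 hν.le
      exact_mod_cast h1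
    · rintro ⟨I, X⟩ hq ⟨I', X'⟩ hq' he
      rw [mem_coe, mem_slabF] at hq hq'
      obtain ⟨e1, e2⟩ := slab_inj ⟨a, b, hab⟩ hk hq.2.2 hq'.2.2 he
      rw [e1, e2]
  · intro c hcm
    rw [mem_image] at hcm
    obtain ⟨⟨I, X⟩, hq, rfl⟩ := hcm
    rw [mem_slabF] at hq
    obtain ⟨-, hX, -⟩ := hq
    have hX' : (X : ℝ) < ZJ - ν * I := Nat.lt_ceil.1 hX
    refine ⟨a * I + b * X, fun s hs1 hs2 => ?_⟩
    obtain ⟨i, hi⟩ := Int.eq_ofNat_of_zero_le (show 0 ≤ s - (a * I + b * X) by linarith)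
    have hs : s = a * I + b * X + i := by linarith
    have e1 : a * ((k : ℤ) * X - y * I) - -(y : ℤ) * s = X + y * i := by
      rw [hs]; linear_combination (X : ℤ) * hab
    have e2 : -b * ((k : ℤ) * X - y * I) + (k : ℤ) * s = I + k * i := by
      rw [hs]; linear_combination (I : ℤ) * hab
    simp only
    rw [e1, e2]
    refine ⟨by positivity, by positivity, ?_⟩
    simp only
    push_cast
    have hiJ : (i : ℝ) ≤ J := by
      have : (i : ℤ) ≤ J := by linarith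
      exact_mod_cast this
    have h5 : Δ * i ≤ Δ * J := mul_le_mul_of_nonneg_left hiJ hΔ0.le
    rw [hΔ] at h5
    have h6 : ZJ = Z - (ν * k + y) * J := by rw [hZJ, hΔ]
    nlinarith

/-- **merging `s` consecutive rows**, independence -/
theorem merge_S {ν Z Z' : ℝ} (_hν : 0 < ν) {s : ℕ} (hs : 0 < s) (hsν : 1 ≤ s * ν)
    (hZ : Z' + s ^ 2 * ν / 2 ≤ s * (Z + ν / 2))
    (h : Sur w (Op Z' (s ^ 2 * ν))) : Sur w (Op Z ν) := by
  classical
  refine Sur_slabs (s : ℤ) 1 0 1 (by ring) ?_ h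
  rintro ⟨p, j⟩ ⟨hp, hj, hpj⟩
  simp only at hp hj hpj
  refine ⟨hp, hj, ?_⟩
  obtain ⟨J, rfl⟩ := Int.eq_ofNat_of_zero_le hj
  simp only [Int.cast_natCast] at hpj
  let f : ℕ → ℕ := fun i => ⌈Z - ν * (s * J + i)⌉₊
  let Λ : Finset (Σ _ : ℕ, ℕ) := (range s).sigma fun i => range (f i)
  have hcard : (p : ℝ) < (Λ.card : ℝ) := by
    have h1 : (Λ.card : ℝ) = ∑ i ∈ range s, (f i : ℝ) := by
      simp only [Λ, card_sigma, card_range]; push_cast; rfl
    rw [h1]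
    have h2 : ∑ i ∈ range s, (Z - ν * (s * J + i)) ≤ ∑ i ∈ range s, (f i : ℝ) :=
      sum_le_sum fun i _ => Nat.le_ceil _
    have h3 : ∑ i ∈ range s, (Z - ν * ((s : ℝ) * J + (i : ℝ))) =
        s * (Z + ν / 2) - s ^ 2 * ν / 2 - s ^ 2 * ν * J := by
      have h4 : ∑ i ∈ range s, (i : ℝ) = s * (s - 1) / 2 := by
        have h5 := Finset.sum_range_id_mul_two s
        have h6 : ((∑ i ∈ range s, i) * 2 : ℕ) = ((s * (s - 1) : ℕ)) := h5
        have h7 : ((∑ i ∈ range s, (i : ℝ)) * 2) = s * (s - 1) := by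
          have : (((∑ i ∈ range s, i) * 2 : ℕ) : ℝ) = ((s * (s - 1) : ℕ) : ℝ) := by rw [h6]
          push_cast [Nat.cast_sub hs] at this
          exact this
        linarith
      have h5 : ∑ i ∈ range s, (Z - ν * ((s : ℝ) * J + (i : ℝ))) =
          ∑ i ∈ range s, ((Z - ν * s * J) - ν * (i : ℝ)) := sum_congr rfl fun i _ => by ring
      rw [h5, sum_sub_distrib, sum_const, card_range, nsmul_eq_mul, ← mul_sum, h4]
      ring
    rw [h3] at h2
    linarith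
  have hmem : ∀ i X : ℕ, (⟨i, X⟩ : Σ _ : ℕ, ℕ) ∈ Λ ↔ i < s ∧ X < f i := by
    intro i X
    simp only [Λ, mem_sigma, mem_range]
  refine ⟨Λ.image fun q => (s : ℤ) * q.2 + (s * J + q.1), ?_, ?_⟩
  · rw [card_image_of_injOn]
    · exact_mod_cast hcard
    · rintro ⟨i, X⟩ hq ⟨i', X'⟩ hq' he
      rw [mem_coe, hmem] at hq hq'
      simp only at he
      have e1 : (s : ℤ) * ((X : ℤ) - X') = i' - i := by linear_combination he
      have hX : (X : ℤ) - X' = 0 := by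
        by_contra hne
        rcases lt_or_gt_of_ne hne with h0 | h0
        · have a1 : (s : ℤ) * ((X : ℤ) - X') ≤ s * (-1) :=
            mul_le_mul_of_nonneg_left (by omega) (by positivity)
          omega
        · have a1 : (s : ℤ) * 1 ≤ s * ((X : ℤ) - X') :=
            mul_le_mul_of_nonneg_left (by omega) (by positivity)
          omega
      rw [hX, mul_zero] at e1
      have e2 : i = i' := by omega
      have e3 : X = X' := by omega
      rw [e2, e3]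
  · intro c hcm
    rw [mem_image] at hcm
    obtain ⟨⟨i, X⟩, hq, rfl⟩ := hcm
    rw [hmem] at hq
    obtain ⟨hi, hX⟩ := hq
    have hX' : (X : ℝ) < Z - ν * (s * J + i) := Nat.lt_ceil.1 hX
    refine ⟨-X - J, fun t ht1 ht2 => ?_⟩
    obtain ⟨e, he⟩ := Int.eq_ofNat_of_zero_le (show 0 ≤ (-X : ℤ) - t by linarith)
    have ht : t = -X - e := by linarith
    have heJ : (e : ℤ) ≤ J := by linarith
    have e1 : (0 : ℤ) * ((s : ℤ) * X + (s * J + i)) - 1 * t = X + e := by rw [ht]; ring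
    have e2 : (1 : ℤ) * ((s : ℤ) * X + (s * J + i)) + (s : ℤ) * t = s * (J - e) + i := by
      rw [ht]; ring
    simp only
    rw [e1, e2]
    refine ⟨by positivity, ?_, ?_⟩
    · have : 0 ≤ (s : ℤ) * (J - e) := mul_nonneg (by positivity) (by linarith)
      simp only
      linarith [Int.natCast_nonneg i]
    · simp only
      push_cast
      have h5 : 0 ≤ (e : ℝ) * (s * ν - 1) := mul_nonneg (Nat.cast_nonneg e) (by linarith)
      nlinarith

end Pool.Agent.TH603.Cut
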