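import Pool.Agent.TH603.Cut.Stage

/-! Transfers from the plane to the slopes `D t ^ 2`, by induction on `D`. -/

namespace Pool.Agent.TH603.Cut

open Finset Pool.Agent.TH176.Nag Pool.Agent.TH603.Sur Pool.Agent.TH181.NagM

/-- the transfers from the slope one to the slopes `D t ^ 2` lose as little as we please -/
def Hyp (D : ℕ) : Prop :=
  ∀ ε : ℝ, 0 < ε → ∃ t0 : ℕ, 1 ≤ t0 ∧ ∀ t : ℕ, t0 ≤ t → TrS 1 (D * t ^ 2) ε ∧ TrE 1 (D * t ^ 2) ε

theorem hyp_one : Hyp 1 := by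
  intro ε hε
  refine ⟨⌈3 / ε⌉₊ + 2, by omega, fun t ht => ?_⟩
  have h1 : 3 / ε ≤ t := by
    have h2 := Nat.le_ceil (3 / ε)
    have h3 : (⌈3 / ε⌉₊ : ℝ) ≤ t := by exact_mod_cast (by omega : ⌈3 / ε⌉₊ ≤ t)
    linarith
  have ht2 : 2 ≤ t := by omega
  have ht0 : (0 : ℝ) < t := by exact_mod_cast (by omega : 0 < t)
  rw [div_le_iff₀ hε] at h1
  have hsq : √((1 * t ^ 2 : ℕ) : ℝ) = t := by
    push_cast
    rw [one_mul, Real.sqrt_sq ht0.le]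
  have hn2 : 2 ≤ 1 * t ^ 2 := by nlinarith
  constructor
  · refine (TrS_div le_rfl (by omega : 1 ≤ t) (by ring : 1 * (1 * t ^ 2) = t ^ 2)).le ?_
    rw [hsq]
    push_cast
    rw [div_le_iff₀ (by positivity)]
    linarith
  · refine (TrE_div le_rfl (by omega : 1 ≤ t) (by ring : 1 * (1 * t ^ 2) = t ^ 2) hn2).le ?_
    rw [hsq]
    push_cast
    rw [div_le_iff₀ (by positivity)]
    linarith

theorem hyp_succ {D : ℕ} (hD : 1 ≤ D) (h : Hyp D) : Hyp (D + 1) := by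
  intro ε hε
  obtain ⟨t1, ht1, h1⟩ := h (ε / 4) (by positivity)
  obtain ⟨y, t, hkt, hy, hpell⟩ := pell D (max (max t1 5) ⌈64 / ε⌉₊)
  have htt1 : t1 ≤ t := ((le_max_left _ _).trans (le_max_left _ _)).trans hkt
  have ht5 : 5 ≤ t := ((le_max_right _ _).trans (le_max_left _ _)).trans hkt
  have htε : 64 / ε ≤ t := by
    have h2 := Nat.le_ceil (64 / ε)
    have h3 : (⌈64 / ε⌉₊ : ℝ) ≤ t := by exact_mod_cast (le_max_right _ _).trans hkt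
    linarith
  rw [div_le_iff₀ hε] at htε
  obtain ⟨M, hM⟩ : ∃ M : ℕ, M = D * (2 * t) ^ 2 := ⟨_, rfl⟩
  have hM100 : 100 ≤ M := by
    rw [hM]
    have : 1 * (2 * 5) ^ 2 ≤ D * (2 * t) ^ 2 := Nat.mul_le_mul hD (Nat.pow_le_pow_left (by omega) 2)
    omega
  obtain ⟨hS1, hE1⟩ := h1 (2 * t) (by omega)
  rw [← hM] at hS1 hE1
  obtain ⟨a, ha, hS2, hE2⟩ := stage hM100
  have hM4 : M + 4 = (D + 1) * (2 * y) ^ 2 := by
    rw [hM]
    have : (D + 1) * (2 * y) ^ 2 = 4 * ((D + 1) * y ^ 2) := by ring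
    rw [this, hpell]; ring
  obtain ⟨nf, hnf⟩ : ∃ nf : ℕ, nf = a ^ 2 * (M + 4) := ⟨_, rfl⟩
  rw [← hnf] at hS2 hE2
  have hnf' : nf = (D + 1) * (2 * a * y) ^ 2 := by rw [hnf, hM4]; ring
  have hMnf : M ≤ nf := by
    rw [hnf]
    have : 1 * (M + 4) ≤ a ^ 2 * (M + 4) := Nat.mul_le_mul_right _ (Nat.one_le_pow _ _ ha)
    omega
  have hM0 : (0 : ℝ) < M := by exact_mod_cast (by omega : 0 < M)
  have htR : (0 : ℝ) < t := by exact_mod_cast (by omega : 0 < t)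
  have hsM : (t : ℝ) ≤ √(M : ℝ) := by
    apply Real.le_sqrt_of_sq_le
    have h3 : t ^ 2 ≤ M := by
      rw [hM]
      have : 1 * t ^ 2 ≤ D * (2 * t) ^ 2 := Nat.mul_le_mul hD (Nat.pow_le_pow_left (by omega) 2)
      omega
    exact_mod_cast h3
  have hsM0 : 0 < √(M : ℝ) := Real.sqrt_pos.2 hM0
  have b1 : 1 / √(M : ℝ) ≤ ε / 64 := by
    rw [div_le_div_iff₀ hsM0 (by norm_num)]
    have : ε * t ≤ ε * √(M : ℝ) := mul_le_mul_of_nonneg_left hsM hε.le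
    linarith
  have b2 : 7 / √(M : ℝ) = 7 * (1 / √(M : ℝ)) := by ring
  have b3 : 1 / √(nf : ℝ) ≤ 1 / √(M : ℝ) := by
    apply one_div_le_one_div_of_le hsM0
    apply Real.sqrt_le_sqrt
    exact_mod_cast hMnf
  -- the last stage
  refine ⟨max (2 * a * y) (⌈((nf : ℝ) / 8 + 2) * 8 / ε⌉₊ + 1), by
    have := le_max_right (2 * a * y) (⌈((nf : ℝ) / 8 + 2) * 8 / ε⌉₊ + 1)
    omega, fun t' ht' => ?_⟩
  have c1 : 2 * a * y ≤ t' := (le_max_left _ _).trans ht'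
  have c2 : ⌈((nf : ℝ) / 8 + 2) * 8 / ε⌉₊ + 1 ≤ t' := (le_max_right _ _).trans ht'
  have c3 : ((nf : ℝ) / 8 + 2) * 8 / ε ≤ t' := by
    have h2 := Nat.le_ceil (((nf : ℝ) / 8 + 2) * 8 / ε)
    have h3 : (⌈((nf : ℝ) / 8 + 2) * 8 / ε⌉₊ : ℝ) ≤ t' := by
      exact_mod_cast (by omega : ⌈((nf : ℝ) / 8 + 2) * 8 / ε⌉₊ ≤ t')
    linarith
  rw [div_le_iff₀ hε] at c3
  have c0 : 1 ≤ t' := by omega
  obtain ⟨n, hn⟩ : ∃ n : ℕ, n = (D + 1) * t' ^ 2 := ⟨_, rfl⟩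
  rw [← hn]
  have hx : nf ≤ (D + 1) * (2 * a * y) * t' := by
    rw [hnf']
    have : (D + 1) * (2 * a * y) * (2 * a * y) ≤ (D + 1) * (2 * a * y) * t' := Nat.mul_le_mul_left _ c1
    calc (D + 1) * (2 * a * y) ^ 2 = (D + 1) * (2 * a * y) * (2 * a * y) := by ring
      _ ≤ _ := this
  have hnn : nf * n = ((D + 1) * (2 * a * y) * t') ^ 2 := by rw [hnf', hn]; ring
  have hn2 : 2 ≤ n := by
    rw [hn]
    have : 2 * 1 ≤ (D + 1) * t' ^ 2 := Nat.mul_le_mul (by omega) (Nat.one_le_pow _ _ c0)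
    omega
  have hsn : (t' : ℝ) ≤ √(n : ℝ) := by
    apply Real.le_sqrt_of_sq_le
    have h3 : t' ^ 2 ≤ n := by
      rw [hn]
      have : 1 * t' ^ 2 ≤ (D + 1) * t' ^ 2 := Nat.mul_le_mul_right _ (by omega)
      omega
    exact_mod_cast h3
  have ht'0 : (0 : ℝ) < t' := by exact_mod_cast c0
  have hsn0 : 0 < √(n : ℝ) := by linarith
  have hnfR : (0 : ℝ) ≤ nf := Nat.cast_nonneg _
  have b4 : ((nf : ℝ) / 8 + 2) / √(n : ℝ) ≤ ε / 8 := by
    rw [div_le_div_iff₀ hsn0 (by norm_num)]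
    have : ε * t' ≤ ε * √(n : ℝ) := mul_le_mul_of_nonneg_left hsn hε.le
    linarith
  have b5 : (nf : ℝ) / (8 * √(n : ℝ)) ≤ ((nf : ℝ) / 8 + 2) / √(n : ℝ) := by
    rw [← div_div]
    apply div_le_div_of_nonneg_right _ hsn0.le
    linarith
  have hM1 : 1 ≤ M := by omega
  have hnf1 : 1 ≤ nf := by omega
  have b0 : 0 < 1 / √(M : ℝ) := by positivity
  constructor
  · refine ((hS1.trans hM1 hS2).trans hnf1 (TrS_div hnf1 hx hnn)).le ?_
    rw [b2]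
    linarith
  · refine ((hE1.trans le_rfl hM1 (by positivity) hE2).trans le_rfl hnf1 (by positivity)
      (TrE_div hnf1 hx hnn hn2)).le ?_
    rw [b2]
    linarith

theorem hyp {D : ℕ} (hD : 1 ≤ D) : Hyp D := by
  induction D, hD using Nat.le_induction with
  | base => exact hyp_one
  | succ D hD ih => exact hyp_succ hD ih

end Pool.Agent.TH603.Cut
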