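import Pool.Agent.TH603.Cut.Shape
import Pool.Agent.TH603.Cut.Key

/-! Transfer of emptiness and independence between weighted planes, with the loss in the degree. -/

namespace Pool.Agent.TH603.Cut

open Finset Pool.Agent.TH176.Nag Pool.Agent.TH603.Sur Pool.Agent.TH181.NagM

/-- the normalised size of the lattice triangle with rows `A - n j` -/
noncomputable def sz (n A : ℝ) : ℝ := (A + n / 2) / √n

/-- transfer of independence from the slope `n'` to the slope `n` with loss `ε` -/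
def TrS (n n' : ℕ) (ε : ℝ) : Prop :=
  ∀ (ι : Type) [Fintype ι] (w : ι → ℕ) (A A' : ℤ), sz n' A' + ε ≤ sz n A →
    Sur w (Op A' n') → Sur w (Op A n)

/-- transfer of emptiness from the slope `n'` to the slope `n` with loss `ε` -/
def TrE (n n' : ℕ) (ε : ℝ) : Prop := ∃ A0 : ℤ,
  ∀ (ι : Type) (w : ι → ℕ) (A A' : ℤ), A0 ≤ A → sz n A + ε ≤ sz n' A' →
    Emp w (Cl A' n') → Emp w (Cl A n)

theorem TrS.le {n n' : ℕ} {ε ε' : ℝ} (h : TrS n n' ε) (hε : ε ≤ ε') : TrS n n' ε' :=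
  fun ι _ w A A' h1 h2 => h ι w A A' (by linarith) h2

theorem TrE.le {n n' : ℕ} {ε ε' : ℝ} (h : TrE n n' ε) (hε : ε ≤ ε') : TrE n n' ε' := by
  obtain ⟨A0, h⟩ := h
  exact ⟨A0, fun ι w A A' h0 h1 h2 => h ι w A A' h0 (by linarith) h2⟩

/-- an integer of size at most `u` and more than `u - 1 / √n` -/
theorem exists_sz_le {n : ℕ} (hn : 1 ≤ n) (u : ℝ) : ∃ A : ℤ, sz n A ≤ u ∧ u - 1 / √(n : ℝ) < sz n A := by
  have hn' : (0 : ℝ) < n := by exact_mod_cast hn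
  have hs : 0 < √(n : ℝ) := Real.sqrt_pos.2 hn'
  refine ⟨⌊√(n : ℝ) * u - n / 2⌋, ?_, ?_⟩
  · unfold sz
    rw [div_le_iff₀ hs]
    have := Int.floor_le (√(n : ℝ) * u - n / 2)
    linarith
  · unfold sz
    rw [lt_div_iff₀ hs, sub_mul, one_div, inv_mul_cancel₀ hs.ne']
    have := Int.lt_floor_add_one (√(n : ℝ) * u - n / 2)
    linarith

/-- an integer of size at least `u` and less than `u + 1 / √n` -/
theorem exists_sz_ge {n : ℕ} (hn : 1 ≤ n) (u : ℝ) : ∃ A : ℤ, u ≤ sz n A ∧ sz n A < u + 1 / √(n : ℝ) := by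
  have hn' : (0 : ℝ) < n := by exact_mod_cast hn
  have hs : 0 < √(n : ℝ) := Real.sqrt_pos.2 hn'
  refine ⟨⌈√(n : ℝ) * u - n / 2⌉, ?_, ?_⟩
  · unfold sz
    rw [le_div_iff₀ hs]
    have := Int.le_ceil (√(n : ℝ) * u - n / 2)
    linarith
  · unfold sz
    rw [div_lt_iff₀ hs, add_mul, one_div, inv_mul_cancel₀ hs.ne']
    have := Int.ceil_lt_add_one (√(n : ℝ) * u - n / 2)
    linarith

theorem TrS.trans {n n' n'' : ℕ} {ε ε' : ℝ} (hn' : 1 ≤ n') (h : TrS n n' ε) (h' : TrS n' n'' ε') :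
    TrS n n'' (ε + ε' + 1 / √(n' : ℝ)) := by
  intro ι _ w A A'' h1 h2
  obtain ⟨A', h3, h4⟩ := exists_sz_le hn' (sz n A - ε)
  exact h ι w A A' (by linarith) (h' ι w A' A'' (by linarith) h2)

theorem TrE.trans {n n' n'' : ℕ} {ε ε' : ℝ} (hn : 1 ≤ n) (hn' : 1 ≤ n') (hε : 0 ≤ ε)
    (h : TrE n n' ε) (h' : TrE n' n'' ε') : TrE n n'' (ε + ε' + 1 / √(n' : ℝ)) := by
  obtain ⟨A0, h⟩ := h
  obtain ⟨A0', h'⟩ := h'
  have hnR : (0 : ℝ) < n := by exact_mod_cast hn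
  have hs : 0 < √(n : ℝ) := Real.sqrt_pos.2 hnR
  have hnR' : (0 : ℝ) < n' := by exact_mod_cast hn'
  have hs' : 0 < √(n' : ℝ) := Real.sqrt_pos.2 hnR'
  refine ⟨max A0 ⌈√(n : ℝ) * sz n' A0'⌉, fun ι w A A'' h0 h1 h2 => ?_⟩
  obtain ⟨A', h3, h4⟩ := exists_sz_ge hn' (sz n A + ε)
  refine h ι w A A' ((le_max_left _ _).trans h0) h3 (h' ι w A' A'' ?_ (by linarith) h2)
  have h5 : √(n : ℝ) * sz n' A0' ≤ A := by
    have := Int.le_ceil (√(n : ℝ) * sz n' A0')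
    have h6 : (⌈√(n : ℝ) * sz n' A0'⌉ : ℝ) ≤ A := by exact_mod_cast (le_max_right _ _).trans h0
    linarith
  have h6 : sz n' A0' ≤ sz n A := by
    unfold sz at h5 ⊢
    rw [le_div_iff₀ hs]
    linarith
  have h7 : sz n' A0' ≤ sz n' A' := by linarith
  unfold sz at h7
  rw [div_le_div_iff_of_pos_right hs'] at h7
  have h8 : (A0' : ℝ) ≤ A' := by linarith
  exact_mod_cast h8

/-- the condition on the top row for large triangles -/
theorem top_of_large {ν Δ n' Z Z' : ℝ} (hν : 0 < ν) (hΔ : 0 < Δ) (hn' : n' * ν = Δ ^ 2) (hn1 : 1 ≤ n')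
    (hZ : Δ * (Z + ν / 2) ≤ (Z' - 2 + n' / 2) * ν)
    (hZ0 : Δ * ((Δ + ν / 2) ^ 2 / (2 * ν) + n' / 2) ≤ Z) :
    ∀ j : ℕ, 0 ≤ Z - Δ * j → Z - Δ * j < Δ →
      (Z - Δ * j + ν / 2) ^ 2 / (2 * ν) + (n' - 1) * j ≤ Z' := by
  intro j h1 h2
  have h3 : (Z - Δ * j + ν / 2) ^ 2 / (2 * ν) ≤ (Δ + ν / 2) ^ 2 / (2 * ν) := by
    apply div_le_div_of_nonneg_right _ (by positivity)
    exact pow_le_pow_left₀ (by linarith) (by linarith) 2
  obtain ⟨Y, hY⟩ : ∃ Y, Y = (Δ + ν / 2) ^ 2 / (2 * ν) := ⟨_, rfl⟩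
  rw [← hY] at h3 hZ0
  -- `Δ j ≤ Z`
  have hj : Δ * j ≤ Z := by linarith
  have h4 : (n' - 1) * (Δ * j) ≤ (n' - 1) * Z := mul_le_mul_of_nonneg_left hj (by linarith)
  have h5 : Δ * (Y + (n' - 1) * j) ≤ Δ * Z' := by
    have h6 : Δ * (Δ * (Z + ν / 2)) ≤ Δ * ((Z' - 2 + n' / 2) * ν) := mul_le_mul_of_nonneg_left hZ hΔ.le
    have h7 : Δ * (Δ * (Z + ν / 2)) = (n' * (Z + ν / 2)) * ν := by
      have : Δ * (Δ * (Z + ν / 2)) = Δ ^ 2 * (Z + ν / 2) := by ring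
      rw [this, ← hn']; ring
    have h8 : (n' * (Z + ν / 2)) * ν ≤ (Δ * (Z' - 2 + n' / 2)) * ν := by rw [← h7]; linarith
    have h9 : n' * (Z + ν / 2) ≤ Δ * (Z' - 2 + n' / 2) := le_of_mul_le_mul_right h8 hν
    have h10 : 0 ≤ n' * ν := by positivity
    nlinarith
  have h11 := le_of_mul_le_mul_left h5 hΔ
  linarith

/-- moves inside a square class, independence -/
theorem TrS_div {s x n : ℕ} (hs : 1 ≤ s) (hx : s ≤ x) (hn : s * n = x ^ 2) :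
    TrS s n (s / (8 * √(n : ℝ))) := by
  intro ι _ w A A' h1 h2
  obtain ⟨y, rfl⟩ := Nat.exists_eq_add_of_le hx
  have hsR : (0 : ℝ) < s := by exact_mod_cast hs
  have hn0 : 0 < n := by
    rcases Nat.eq_zero_or_pos n with h | h
    · rw [h, mul_zero] at hn
      have : 0 < (s + y) ^ 2 := by positivity
      omega
    · exact h
  have hnR : (0 : ℝ) < n := by exact_mod_cast hn0
  have hrs : 0 < √(s : ℝ) := Real.sqrt_pos.2 hsR
  have hrn : 0 < √(n : ℝ) := Real.sqrt_pos.2 hnR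
  have e : √(s : ℝ) * √(n : ℝ) = s + y := by
    rw [← Real.sqrt_mul hsR.le]
    have : ((s : ℝ) * n) = ((s : ℝ) + y) ^ 2 := by exact_mod_cast hn
    rw [this, Real.sqrt_sq (by positivity)]
  have hss : √(s : ℝ) * √(s : ℝ) = s := Real.mul_self_sqrt hsR.le
  refine move_S hsR (n' := n) (k := 1) (y := y) (by simpa using isCoprime_one_left) one_pos ?_ ?_ h2
  · have : ((s : ℝ) * n) = ((s : ℝ) + y) ^ 2 := by exact_mod_cast hn
    push_cast; linarith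
  · unfold sz at h1
    have h3 : ((A' + (n : ℝ) / 2) / √(n : ℝ) + s / (8 * √(n : ℝ))) * (√(n : ℝ) * s) ≤
        ((A + (s : ℝ) / 2) / √(s : ℝ)) * (√(n : ℝ) * s) :=
      mul_le_mul_of_nonneg_right h1 (by positivity)
    have h4 : ((A' + (n : ℝ) / 2) / √(n : ℝ) + s / (8 * √(n : ℝ))) * (√(n : ℝ) * s) =
        (A' + (n : ℝ) / 2) * s + s ^ 2 / 8 := by field_simp
    have h5 : ((A + (s : ℝ) / 2) / √(s : ℝ)) * (√(n : ℝ) * s) = (s + y) * (A + s / 2) := by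
      have : ((A + (s : ℝ) / 2) / √(s : ℝ)) * (√(n : ℝ) * (√(s : ℝ) * √(s : ℝ))) =
          (√(s : ℝ) * √(n : ℝ)) * (A + s / 2) := by field_simp
      rw [hss, e] at this
      exact this
    rw [h4, h5] at h3
    push_cast
    linarith

/-- moves inside a square class, emptiness, with the condition on the top row -/
theorem E_div {ι : Type} {w : ι → ℕ} {s x n : ℕ} (hs : 1 ≤ s) (hx : s ≤ x) (hn : s * n = x ^ 2)
    (hn2 : 2 ≤ n) {A A' : ℤ} (h1 : sz s A + (s / 8 + 2) / √(n : ℝ) ≤ sz n A')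
    (htop : ∀ j : ℕ, 0 ≤ (A : ℝ) - x * j → (A : ℝ) - x * j < x →
      ((A : ℝ) - x * j + s / 2) ^ 2 / (2 * s) + ((n : ℝ) - 1) * j ≤ A')
    (h2 : Emp w (Cl A' n)) : Emp w (Cl A s) := by
  obtain ⟨y, rfl⟩ := Nat.exists_eq_add_of_le hx
  have hsR : (0 : ℝ) < s := by exact_mod_cast hs
  have hnR : (2 : ℝ) ≤ n := by exact_mod_cast hn2
  have hrs : 0 < √(s : ℝ) := Real.sqrt_pos.2 hsR
  have hrn : 0 < √(n : ℝ) := Real.sqrt_pos.2 (by linarith)
  have e : √(s : ℝ) * √(n : ℝ) = s + y := by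
    rw [← Real.sqrt_mul hsR.le]
    have : ((s : ℝ) * n) = ((s : ℝ) + y) ^ 2 := by exact_mod_cast hn
    rw [this, Real.sqrt_sq (by positivity)]
  have hss : √(s : ℝ) * √(s : ℝ) = s := Real.mul_self_sqrt hsR.le
  refine move_E hsR (n' := n) (k := 1) (y := y) (by simpa using isCoprime_one_left) one_pos ?_ hnR
    ?_ ?_ h2
  · have : ((s : ℝ) * n) = ((s : ℝ) + y) ^ 2 := by exact_mod_cast hn
    push_cast; linarith
  · unfold sz at h1
    have h3 : ((A + (s : ℝ) / 2) / √(s : ℝ) + (s / 8 + 2) / √(n : ℝ)) * (√(n : ℝ) * s) ≤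
        ((A' + (n : ℝ) / 2) / √(n : ℝ)) * (√(n : ℝ) * s) :=
      mul_le_mul_of_nonneg_right h1 (by positivity)
    have h4 : ((A' + (n : ℝ) / 2) / √(n : ℝ)) * (√(n : ℝ) * s) = (A' + (n : ℝ) / 2) * s := by
      field_simp
    have h5 : ((A + (s : ℝ) / 2) / √(s : ℝ)) * (√(n : ℝ) * s) = (s + y) * (A + s / 2) := by
      have : ((A + (s : ℝ) / 2) / √(s : ℝ)) * (√(n : ℝ) * (√(s : ℝ) * √(s : ℝ))) =
          (√(s : ℝ) * √(n : ℝ)) * (A + s / 2) := by field_simp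
      rw [hss, e] at this
      exact this
    have h6 : ((s : ℝ) / 8 + 2) / √(n : ℝ) * (√(n : ℝ) * s) = s ^ 2 / 8 + 2 * s := by
      field_simp
    rw [add_mul, h4, h5, h6] at h3
    push_cast
    linarith
  · intro j hj1 hj2
    push_cast at hj1 hj2 ⊢
    rw [mul_one] at hj1 hj2 ⊢
    have := htop j (by push_cast; exact hj1) (by push_cast; exact hj2)
    push_cast at this
    exact this

/-- moves inside a square class, emptiness -/
theorem TrE_div {s x n : ℕ} (hs : 1 ≤ s) (hx : s ≤ x) (hn : s * n = x ^ 2) (hn2 : 2 ≤ n) :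
    TrE s n ((s / 8 + 2) / √(n : ℝ)) := by
  have hsR : (0 : ℝ) < s := by exact_mod_cast hs
  have hxR : (0 : ℝ) < x := by exact_mod_cast (lt_of_lt_of_le hs hx)
  have hnR : (2 : ℝ) ≤ n := by exact_mod_cast hn2
  have hrs : 0 < √(s : ℝ) := Real.sqrt_pos.2 hsR
  have hrn : 0 < √(n : ℝ) := Real.sqrt_pos.2 (by linarith)
  have hnR' : (n : ℝ) * s = (x : ℝ) ^ 2 := by
    have : ((s : ℝ) * n) = (x : ℝ) ^ 2 := by exact_mod_cast hn
    linarith
  have e : √(s : ℝ) * √(n : ℝ) = x := by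
    rw [← Real.sqrt_mul hsR.le, mul_comm, hnR', Real.sqrt_sq hxR.le]
  have hss : √(s : ℝ) * √(s : ℝ) = s := Real.mul_self_sqrt hsR.le
  refine ⟨⌈(x : ℝ) * (((x : ℝ) + s / 2) ^ 2 / (2 * s) + n / 2)⌉, fun ι w A A' h0 h1 h2 => ?_⟩
  refine E_div hs hx hn hn2 h1 ?_ h2
  refine top_of_large hsR hxR hnR' (by linarith) ?_ ?_
  · unfold sz at h1
    have h3 : ((A + (s : ℝ) / 2) / √(s : ℝ) + (s / 8 + 2) / √(n : ℝ)) * (√(n : ℝ) * s) ≤
        ((A' + (n : ℝ) / 2) / √(n : ℝ)) * (√(n : ℝ) * s) :=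
      mul_le_mul_of_nonneg_right h1 (by positivity)
    have h4 : ((A' + (n : ℝ) / 2) / √(n : ℝ)) * (√(n : ℝ) * s) = (A' + (n : ℝ) / 2) * s := by
      field_simp
    have h5 : ((A + (s : ℝ) / 2) / √(s : ℝ)) * (√(n : ℝ) * s) = x * (A + s / 2) := by
      have : ((A + (s : ℝ) / 2) / √(s : ℝ)) * (√(n : ℝ) * (√(s : ℝ) * √(s : ℝ))) =
          (√(s : ℝ) * √(n : ℝ)) * (A + s / 2) := by field_simp
      rw [hss, e] at this
      exact this
    have h6 : ((s : ℝ) / 8 + 2) / √(n : ℝ) * (√(n : ℝ) * s) = s ^ 2 / 8 + 2 * s := by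
      field_simp
    rw [add_mul, h4, h5, h6] at h3
    have : 0 ≤ (s : ℝ) ^ 2 / 8 := by positivity
    linarith
  · have h3 := Int.le_ceil ((x : ℝ) * (((x : ℝ) + s / 2) ^ 2 / (2 * s) + n / 2))
    have h4 : (⌈(x : ℝ) * (((x : ℝ) + s / 2) ^ 2 / (2 * s) + n / 2)⌉ : ℝ) ≤ A := by exact_mod_cast h0
    linarith

end Pool.Agent.TH603.Cut
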